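import Pool.Agent.RG4.Main

/-!
# The initiative of the strong Ramsey game on `K_n` with target `K_4` is six (MP_2d204b_co)

The definitions are in `Pool/Agent/RG4/Defs.lean`.  The upper bound is proved with a certificate
(a strategy tree of P1 with 35470 positions up to symmetry), checked by the kernel.
-/

set_option autoImplicit false

namespace Pool.Agent.Results.MP_2d204b_co.InitiativeSix

open Pool.Agent.RG4

/-- For every `n ≥ 20`: P1 has a winning strategy in the game on `K_n` with target `K_4` in which
P2 may pass, and the least possible value of the largest number of passes is exactly `6`. -/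
theorem result : ∀ n : ℕ, 20 ≤ n →
    Initiative (⊤ : SimpleGraph (Fin n)) (⊤ : SimpleGraph (Fin 4)) 6 := by
  intro n hn
  exact initiative_six (wn_six hn)

end Pool.Agent.Results.MP_2d204b_co.InitiativeSix
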